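import Mathlib

/-! # Amalgamation of real zero polynomials: the constraints on the unknown coefficients

`W` collects the fifteen unknown coefficients of a candidate amalgam. -/

set_option autoImplicit false

namespace Pool.Agent.H734.Amalg

open Filter Topology

theorem even2 (f : ℝ → ℝ) (hf : Continuous f) (h : ∀ e : ℝ, 0 ≤ e ^ 2 * f e) : 0 ≤ f 0 := by
  have h1 : Tendsto f (𝓝[>] 0) (𝓝 (f 0)) := hf.continuousWithinAt
  refine ge_of_tendsto h1 ?_
  filter_upwards [self_mem_nhdsWithin] with e he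
  have he' : (0 : ℝ) < e := he
  have := h e
  have h2 : 0 < e ^ 2 := by positivity
  exact nonneg_of_mul_nonneg_right this h2

theorem odd1 (f : ℝ → ℝ) (hf : Continuous f) (h : ∀ e : ℝ, 0 ≤ e * f e) : f 0 = 0 := by
  apply le_antisymm
  · have h1 : Tendsto f (𝓝[<] 0) (𝓝 (f 0)) := hf.continuousWithinAt
    refine le_of_tendsto h1 ?_
    filter_upwards [self_mem_nhdsWithin] with e he
    have he' : e < (0 : ℝ) := he
    have := h e
    nlinarith
  · have h1 : Tendsto f (𝓝[>] 0) (𝓝 (f 0)) := hf.continuousWithinAt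
    refine ge_of_tendsto h1 ?_
    filter_upwards [self_mem_nhdsWithin] with e he
    have he' : (0 : ℝ) < e := he
    exact nonneg_of_mul_nonneg_right (h e) he'

theorem odd3 (f : ℝ → ℝ) (hf : Continuous f) (h : ∀ e : ℝ, 0 ≤ e ^ 3 * f e) : f 0 = 0 := by
  refine odd1 f hf fun e => ?_
  rcases eq_or_ne e 0 with rfl | he
  · simp
  · have h1 := h e
    have h2 : 0 < e ^ 2 := by positivity
    have h3 : e ^ 3 * f e = e ^ 2 * (e * f e) := by ring
    rw [h3] at h1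
    exact nonneg_of_mul_nonneg_right h1 h2

/-- the unknown coefficients of a candidate amalgam -/
structure W where
  (l0 l1 l2 l3 l4 w11 w12 w13 w14 w22 w23 w24 w33 w34 w44 : ℝ)

def E1 (x1 x2 y z : ℝ) : ℝ := 4 * (x1 + x2) + y + 2 * z

def E2 (w : W) (x1 x2 y z : ℝ) : ℝ :=
  2 * (x1 + x2) ^ 2 + 8 * (x1 * x2) + 2 * (x1 + x2) * y + z ^ 2 + 6 * (x1 + x2) * z + w.l0 * (y * z)

def E3 (w : W) (x1 x2 y z : ℝ) : ℝ :=
  4 * (x1 * x2) * (x1 + x2 + y) + 2 * (x1 + x2) * z * (x1 + x2 + z) + 8 * (x1 * x2) * z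
    + y * z * (w.l1 * x1 + w.l2 * x2 + w.l3 * y + w.l4 * z)

def E4 (w : W) (x1 x2 y z : ℝ) : ℝ :=
  2 * (x1 * x2) * z * (x1 + x2 + z)
    + y * z * (w.w11 * x1 ^ 2 + w.w12 * (x1 * x2) + w.w13 * (x1 * y) + w.w14 * (x1 * z)
      + w.w22 * x2 ^ 2 + w.w23 * (x2 * y) + w.w24 * (x2 * z) + w.w33 * y ^ 2 + w.w34 * (y * z)
      + w.w44 * z ^ 2)

/-- all the quartics of the candidate amalgam split over the reals -/
def RR (w : W) : Prop :=
  ∀ x1 x2 y z : ℝ, ∃ r1 r2 r3 r4 : ℝ, ∀ t : ℝ,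
    t ^ 4 + E1 x1 x2 y z * t ^ 3 + E2 w x1 x2 y z * t ^ 2 + E3 w x1 x2 y z * t + E4 w x1 x2 y z
      = (t - r1) * (t - r2) * (t - r3) * (t - r4)

theorem quart (a b c d r1 r2 r3 r4 : ℝ)
    (h : ∀ t : ℝ, t ^ 4 + a * t ^ 3 + b * t ^ 2 + c * t + d
      = (t - r1) * (t - r2) * (t - r3) * (t - r4)) :
    0 ≤ c ^ 2 - 2 * b * d ∧ 0 ≤ b ^ 2 - 2 * a * c + 2 * d := by
  have h0 := h 0
  have h1 := h 1
  have h2 := h (-1)
  have h3 := h 2
  have hd : d = r1 * r2 * r3 * r4 := by linear_combination h0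
  have hb : b = r1 * r2 + r1 * r3 + r1 * r4 + r2 * r3 + r2 * r4 + r3 * r4 := by
    linear_combination (1 / 2) * h1 + (1 / 2) * h2 - h0
  have ha : a = -(r1 + r2 + r3 + r4) := by
    linear_combination (1 / 6) * h3 - (1 / 2) * h1 - (1 / 6) * h2 + (1 / 2) * h0
  have hc : c = -(r1 * r2 * r3 + r1 * r2 * r4 + r1 * r3 * r4 + r2 * r3 * r4) := by
    linear_combination -(1 / 6) * h3 + h1 - (1 / 3) * h2 - (1 / 2) * h0
  subst hd hb ha hc
  constructor
  · have : (-(r1 * r2 * r3 + r1 * r2 * r4 + r1 * r3 * r4 + r2 * r3 * r4)) ^ 2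
        - 2 * (r1 * r2 + r1 * r3 + r1 * r4 + r2 * r3 + r2 * r4 + r3 * r4) * (r1 * r2 * r3 * r4)
        = (r1 * r2 * r3) ^ 2 + (r1 * r2 * r4) ^ 2 + (r1 * r3 * r4) ^ 2 + (r2 * r3 * r4) ^ 2 := by
      ring
    rw [this]
    positivity
  · have : (r1 * r2 + r1 * r3 + r1 * r4 + r2 * r3 + r2 * r4 + r3 * r4) ^ 2
        - 2 * (-(r1 + r2 + r3 + r4))
          * (-(r1 * r2 * r3 + r1 * r2 * r4 + r1 * r3 * r4 + r2 * r3 * r4))
        + 2 * (r1 * r2 * r3 * r4)
        = (r1 * r2) ^ 2 + (r1 * r3) ^ 2 + (r1 * r4) ^ 2 + (r2 * r3) ^ 2 + (r2 * r4) ^ 2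
          + (r3 * r4) ^ 2 := by ring
    rw [this]
    positivity

theorem q3 {w : W} (h : RR w) (x1 x2 y z : ℝ) :
    0 ≤ (E3 w x1 x2 y z) ^ 2 - 2 * E2 w x1 x2 y z * E4 w x1 x2 y z := by
  obtain ⟨r1, r2, r3, r4, hr⟩ := h x1 x2 y z
  exact (quart _ _ _ _ _ _ _ _ hr).1

theorem q2 {w : W} (h : RR w) (x1 x2 y z : ℝ) :
    0 ≤ (E2 w x1 x2 y z) ^ 2 - 2 * E1 x1 x2 y z * E3 w x1 x2 y z + 2 * E4 w x1 x2 y z := by
  obtain ⟨r1, r2, r3, r4, hr⟩ := h x1 x2 y z
  exact (quart _ _ _ _ _ _ _ _ hr).2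

theorem st1 {w : W} (h : RR w) : w.w33 = w.l3 := by
  have key := odd1 (fun e => e * (e + w.l0) ^ 2 - 2 * (1 + 2 * e) * (w.l3 + w.l4 * e)
      + 2 * (w.w33 + w.w34 * e + w.w44 * e ^ 2)) (by fun_prop) fun e => by
    have := q2 h 0 0 1 e
    refine this.trans_eq ?_
    simp only [E1, E2, E3, E4]
    ring
  linarith

theorem st2 {w : W} (h : RR w) : w.w33 = 0 ∧ w.l3 = 0 := by
  have h1 := st1 h
  have key : ∀ a : ℝ, 0 ≤ w.l3 ^ 2 - 2 * (2 * a + w.l0) * w.w33 := by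
    intro a
    have key := even2 (fun e => (w.l3 + e * (w.l1 * a + w.l4) + 2 * a * e ^ 2 * (a + 1)) ^ 2
        - 2 * (2 * a + w.l0 + e * (2 * a ^ 2 + 1 + 6 * a))
          * (w.w33 + e * (w.w13 * a + w.w34) + e ^ 2 * (w.w11 * a ^ 2 + w.w14 * a + w.w44)))
        (by fun_prop) fun e => by
      have := q3 h (e * a) 0 1 e
      refine this.trans_eq ?_
      simp only [E2, E3, E4]
      ring
    nlinarith [key]
  have h2 := key ((w.l3 - w.l0) / 2)
  rw [h1] at h2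
  have h3 : w.l3 ^ 2 ≤ 0 := by nlinarith
  have h4 : w.l3 = 0 := by
    have := sq_nonneg w.l3
    exact pow_eq_zero_iff (two_ne_zero) |>.1 (le_antisymm h3 this)
  exact ⟨by rw [h1, h4], h4⟩

theorem st3 {w : W} (h : RR w) : w.w34 = 0 := by
  obtain ⟨h33, hl3⟩ := st2 h
  have key : ∀ a : ℝ, (2 * a + w.l0) * (w.w13 * a + w.w34) = 0 := by
    intro a
    have key := odd3 (fun e => e * ((w.l1 * a + w.l4) + 2 * a * e * (a + 1)) ^ 2
        - 2 * (2 * a + w.l0 + e * (2 * a ^ 2 + 1 + 6 * a))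
          * ((w.w13 * a + w.w34) + e * (w.w11 * a ^ 2 + w.w14 * a + w.w44)))
        (by fun_prop) fun e => by
      have := q3 h (e * a) 0 1 e
      refine this.trans_eq ?_
      simp only [E2, E3, E4, h33, hl3]
      ring
    linarith
  have k1 := key ((1 - w.l0) / 2)
  have k2 := key ((2 - w.l0) / 2)
  have k1' : w.w13 * ((1 - w.l0) / 2) + w.w34 = 0 := by
    have : (2 * ((1 - w.l0) / 2) + w.l0) = 1 := by ring
    rw [this, one_mul] at k1
    exact k1
  have k2' : w.w13 * ((2 - w.l0) / 2) + w.w34 = 0 := by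
    have : (2 * ((2 - w.l0) / 2) + w.l0) = 2 := by ring
    rw [this] at k2
    linarith
  have k3 : w.w13 = 0 := by linarith
  rw [k3] at k1'
  linarith

theorem st4 {w : W} (h : RR w) : w.w44 = 0 := by
  obtain ⟨h33, hl3⟩ := st2 h
  have h34 := st3 h
  have key := odd1 (fun e => e * w.l4 ^ 2 - 2 * (1 + w.l0 * e) * w.w44) (by fun_prop) fun e => by
    have := q3 h 0 0 e 1
    refine this.trans_eq ?_
    simp only [E2, E3, E4, h33, hl3, h34]
    ring
  linarith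

theorem st5 {w : W} (h : RR w) : w.w11 = 0 := by
  have key : ∀ y z : ℝ, 0 ≤ (2 * z) ^ 2 - 4 * (w.w11 * (y * z)) := by
    intro y z
    have key := even2 (fun e => (2 * z * (1 + e * z) + e * (y * z) * (w.l1 + w.l3 * (e * y)
        + w.l4 * (e * z))) ^ 2
        - 2 * (2 + 2 * (e * y) + e ^ 2 * z ^ 2 + 6 * (e * z) + w.l0 * (e ^ 2 * (y * z)))
          * (y * z * (w.w11 + w.w13 * (e * y) + w.w14 * (e * z) + w.w33 * (e * y) ^ 2
            + w.w34 * (e * y * (e * z)) + w.w44 * (e * z) ^ 2)))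
        (by fun_prop) fun e => by
      have := q3 h 1 0 (e * y) (e * z)
      refine this.trans_eq ?_
      simp only [E2, E3, E4]
      ring
    nlinarith [key]
  by_contra hne
  have := key (2 / w.w11) 1
  have h2 : w.w11 * (2 / w.w11 * 1) = 2 := by field_simp
  rw [h2] at this
  norm_num at this

theorem st5' {w : W} (h : RR w) : w.w22 = 0 := by
  have key : ∀ y z : ℝ, 0 ≤ (2 * z) ^ 2 - 4 * (w.w22 * (y * z)) := by
    intro y z
    have key := even2 (fun e => (2 * z * (1 + e * z) + e * (y * z) * (w.l2 + w.l3 * (e * y)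
        + w.l4 * (e * z))) ^ 2
        - 2 * (2 + 2 * (e * y) + e ^ 2 * z ^ 2 + 6 * (e * z) + w.l0 * (e ^ 2 * (y * z)))
          * (y * z * (w.w22 + w.w23 * (e * y) + w.w24 * (e * z) + w.w33 * (e * y) ^ 2
            + w.w34 * (e * y * (e * z)) + w.w44 * (e * z) ^ 2)))
        (by fun_prop) fun e => by
      have := q3 h 0 1 (e * y) (e * z)
      refine this.trans_eq ?_
      simp only [E2, E3, E4]
      ring
    nlinarith [key]
  by_contra hne
  have := key (2 / w.w22) 1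
  have h2 : w.w22 * (2 / w.w22 * 1) = 2 := by field_simp
  rw [h2] at this
  norm_num at this

theorem st6 {w : W} (h : RR w) : w.w14 = 0 := by
  obtain ⟨h33, hl3⟩ := st2 h
  have h34 := st3 h
  have h44 := st4 h
  have h11 := st5 h
  have key := odd1 (fun e => e * (w.l1 - w.l4) ^ 2 - 2 * (-3 + (2 - w.l0) * e)
      * (w.w14 - w.w13 * e)) (by fun_prop) fun e => by
    have := q3 h 1 0 e (-1)
    refine this.trans_eq ?_
    simp only [E2, E3, E4, h33, hl3, h34, h44, h11]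
    ring
  linarith

theorem st6' {w : W} (h : RR w) : w.w24 = 0 := by
  obtain ⟨h33, hl3⟩ := st2 h
  have h34 := st3 h
  have h44 := st4 h
  have h22 := st5' h
  have key := odd1 (fun e => e * (w.l2 - w.l4) ^ 2 - 2 * (-3 + (2 - w.l0) * e)
      * (w.w24 - w.w23 * e)) (by fun_prop) fun e => by
    have := q3 h 0 1 e (-1)
    refine this.trans_eq ?_
    simp only [E2, E3, E4, h33, hl3, h34, h44, h22]
    ring
  linarith

theorem st7 {w : W} (h : RR w) : w.l4 = 0 := by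
  obtain ⟨h33, hl3⟩ := st2 h
  have h34 := st3 h
  have h44 := st4 h
  have h11 := st5 h
  have h22 := st5' h
  have h14 := st6 h
  have h24 := st6' h
  have key : ∀ y : ℝ, 0 ≤ (4 + w.l4 * y) ^ 2 - 4 := by
    intro y
    have key := even2 (fun e => (4 * e ^ 2 * (2 + y) + 4 * (1 + 2 * e) + 8 * e
        + y * (w.l1 * e + w.l2 * e + w.l4)) ^ 2
        - 2 * (8 * e ^ 2 + 8 * e ^ 2 + 4 * e * (e * y) + 1 + 12 * e + w.l0 * (e * y))
          * (2 * (1 + 2 * e) + e * y * (w.w12 + w.w13 * y + w.w23 * y)))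
        (by fun_prop) fun e => by
      have := q3 h e e (e * y) 1
      refine this.trans_eq ?_
      simp only [E2, E3, E4, h33, hl3, h34, h44, h11, h22, h14, h24]
      ring
    nlinarith [key]
  by_contra hne
  have := key (-4 / w.l4)
  have h2 : w.l4 * (-4 / w.l4) = -4 := by field_simp
  rw [h2] at this
  norm_num at this

/-- the coefficients after exchanging the two elements `C` and `D` -/
def flip (w : W) : W where
  l0 := 3 - w.l0
  l1 := 4 - w.l1
  l2 := 4 - w.l2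
  l3 := -w.l3
  l4 := 3 - 2 * w.l0 + w.l4
  w11 := -w.w11
  w12 := 4 - w.w12
  w13 := -w.w13
  w14 := 2 - w.l1 + w.w14
  w22 := -w.w22
  w23 := -w.w23
  w24 := 2 - w.l2 + w.w24
  w33 := -w.w33
  w34 := w.w34 - w.l3
  w44 := 1 - w.l0 + w.l4 - w.w44

theorem rr_flip {w : W} (h : RR w) : RR (flip w) := by
  intro x1 x2 y z
  obtain ⟨r1, r2, r3, r4, hr⟩ := h x1 x2 y (-z)
  refine ⟨r1 - z, r2 - z, r3 - z, r4 - z, fun t => ?_⟩
  have := hr (t + z)
  calc _ = (t + z) ^ 4 + E1 x1 x2 y (-z) * (t + z) ^ 3 + E2 w x1 x2 y (-z) * (t + z) ^ 2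
      + E3 w x1 x2 y (-z) * (t + z) + E4 w x1 x2 y (-z) := by
        simp only [E1, E2, E3, E4, flip]
        ring
    _ = _ := by rw [this]; ring

theorem contra {w : W} (h : RR w) : False := by
  have h1 := st7 h
  have h2 := st4 h
  have h3 := st7 (rr_flip h)
  have h4 := st4 (rr_flip h)
  simp only [flip] at h3 h4
  rw [h1] at h3 h4
  rw [h2] at h4
  linarith

end Pool.Agent.H734.Amalg
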