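import Mathlib

/-! # Real zero polynomials and their restrictions: the definitions used in the statement -/

set_option autoImplicit false

namespace Pool.Agent.H734.Amalg

open MvPolynomial

/-- A real polynomial `f` is a real zero polynomial if for every real point `a` and every complex
number `c` with `f (c a) = 0` the number `c` is real. -/
def RealZero {σ : Type} (f : MvPolynomial σ ℝ) : Prop :=
  ∀ (a : σ → ℝ) (c : ℂ), aeval (fun i => c * (a i : ℂ)) f = 0 → c.im = 0

/-- `p(x, 0)`: all variables except the two shared ones are set to zero. -/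
noncomputable def restX {m : ℕ} (p : MvPolynomial (Fin 2 ⊕ Fin m) ℝ) : MvPolynomial (Fin 2) ℝ :=
  aeval (Sum.elim (fun i => X i) (fun _ => 0)) p

/-- `r(x, y, 0)`: the variables `z` are set to zero. -/
noncomputable def restXY {m n : ℕ} (r : MvPolynomial (Fin 2 ⊕ (Fin m ⊕ Fin n)) ℝ) :
    MvPolynomial (Fin 2 ⊕ Fin m) ℝ :=
  aeval (Sum.elim (fun i => X (Sum.inl i)) (Sum.elim (fun j => X (Sum.inr j)) (fun _ => 0))) r

/-- `r(x, 0, z)`: the variables `y` are set to zero. -/
noncomputable def restXZ {m n : ℕ} (r : MvPolynomial (Fin 2 ⊕ (Fin m ⊕ Fin n)) ℝ) :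
    MvPolynomial (Fin 2 ⊕ Fin n) ℝ :=
  aeval (Sum.elim (fun i => X (Sum.inl i)) (Sum.elim (fun _ => 0) (fun k => X (Sum.inr k)))) r

end Pool.Agent.H734.Amalg
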