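import Pool.Agent.H734.Amalg.Coef

/-! # Real-rootedness criteria for quadratics, cubics and quartics -/

set_option autoImplicit false

namespace Pool.Agent.H734.Amalg

open Polynomial

theorem norm_root (t : ℂ) : t ^ 2 - 2 * (t.re : ℂ) * t + ((t.re : ℂ) ^ 2 + (t.im : ℂ) ^ 2) = 0 := by
  apply Complex.ext
  · simp [pow_two]
    ring
  · simp [pow_two]
    ring

theorem lin_zero (a b : ℝ) (t : ℂ) (ht : t.im ≠ 0) (h : (a : ℂ) * t + (b : ℂ) = 0) :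
    a = 0 ∧ b = 0 := by
  have h1 := congrArg Complex.im h
  have h2 := congrArg Complex.re h
  simp at h1 h2
  have ha : a = 0 := h1.resolve_right ht
  subst ha
  exact ⟨rfl, by simpa using h2⟩

theorem quad_real (b c t0 : ℝ) (h : t0 ^ 2 + b * t0 + c ≤ 0) (t : ℂ)
    (ht : t ^ 2 + b * t + c = 0) : t.im = 0 := by
  by_contra hne
  have hn := norm_root t
  have h1 : ((b + 2 * t.re : ℝ) : ℂ) * t + ((c - (t.re ^ 2 + t.im ^ 2) : ℝ) : ℂ) = 0 := by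
    push_cast
    linear_combination ht - hn
  obtain ⟨h2, h3⟩ := lin_zero _ _ t hne h1
  have h4 : 0 < t.im ^ 2 := by positivity
  have h5 : t0 ^ 2 + b * t0 + c = (t0 - t.re) ^ 2 + t.im ^ 2 := by
    linear_combination t0 * h2 + h3
  have h6 : 0 ≤ (t0 - t.re) ^ 2 := sq_nonneg _
  linarith

theorem cubic_real (b c d t1 t2 : ℝ) (h12 : t1 < t2) (h1 : 0 ≤ t1 ^ 3 + b * t1 ^ 2 + c * t1 + d)
    (h2 : t2 ^ 3 + b * t2 ^ 2 + c * t2 + d ≤ 0) (t : ℂ)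
    (ht : t ^ 3 + b * t ^ 2 + c * t + d = 0) : t.im = 0 := by
  by_contra hne
  have hn := norm_root t
  set u := t.re with hu
  set v := t.im with hv
  have h3 : ((c - (u ^ 2 + v ^ 2) + 2 * u * (b + 2 * u) : ℝ) : ℂ) * t
      + ((d - (u ^ 2 + v ^ 2) * (b + 2 * u) : ℝ) : ℂ) = 0 := by
    push_cast
    linear_combination ht - hn * (t + b + 2 * u)
  obtain ⟨h4, h5⟩ := lin_zero _ _ t hne h3
  have h6 : 0 < v ^ 2 := by positivity
  have e : ∀ s : ℝ, s ^ 3 + b * s ^ 2 + c * s + d = ((s - u) ^ 2 + v ^ 2) * (s + b + 2 * u) := by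
    intro s
    linear_combination s * h4 + h5
  rw [e] at h1 h2
  have p1 : 0 < (t1 - u) ^ 2 + v ^ 2 := by positivity
  have p2 : 0 < (t2 - u) ^ 2 + v ^ 2 := by positivity
  have q1 : 0 ≤ t1 + b + 2 * u := nonneg_of_mul_nonneg_right h1 p1
  have q2 : t2 + b + 2 * u ≤ 0 := nonpos_of_mul_nonpos_right h2 p2
  linarith

theorem quartic_real (b c d e t1 t2 t3 : ℝ) (h12 : t1 < t2) (h23 : t2 < t3)
    (h1 : t1 ^ 4 + b * t1 ^ 3 + c * t1 ^ 2 + d * t1 + e ≤ 0)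
    (h2 : 0 ≤ t2 ^ 4 + b * t2 ^ 3 + c * t2 ^ 2 + d * t2 + e)
    (h3 : t3 ^ 4 + b * t3 ^ 3 + c * t3 ^ 2 + d * t3 + e ≤ 0) (t : ℂ)
    (ht : t ^ 4 + b * t ^ 3 + c * t ^ 2 + d * t + e = 0) : t.im = 0 := by
  by_contra hne
  have hn := norm_root t
  set u := t.re with hu
  set v := t.im with hv
  have h4 : ((d - (u ^ 2 + v ^ 2) * (b + 2 * u)
        + 2 * u * (c - (u ^ 2 + v ^ 2) + 2 * u * (b + 2 * u)) : ℝ) : ℂ) * t
      + ((e - (u ^ 2 + v ^ 2) * (c - (u ^ 2 + v ^ 2) + 2 * u * (b + 2 * u)) : ℝ) : ℂ) = 0 := by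
    push_cast
    linear_combination ht - hn * (t ^ 2 + (b + 2 * u) * t
      + (c - (u ^ 2 + v ^ 2) + 2 * u * (b + 2 * u)))
  obtain ⟨h5, h6⟩ := lin_zero _ _ t hne h4
  have h7 : 0 < v ^ 2 := by positivity
  set B := b + 2 * u with hB
  set C := c - (u ^ 2 + v ^ 2) + 2 * u * B with hC
  have key : ∀ s : ℝ, s ^ 4 + b * s ^ 3 + c * s ^ 2 + d * s + e
      = ((s - u) ^ 2 + v ^ 2) * (s ^ 2 + B * s + C) := by
    intro s
    rw [hC, hB] at *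
    linear_combination s * h5 + h6
  rw [key] at h1 h2 h3
  have p1 : 0 < (t1 - u) ^ 2 + v ^ 2 := by positivity
  have p2 : 0 < (t2 - u) ^ 2 + v ^ 2 := by positivity
  have p3 : 0 < (t3 - u) ^ 2 + v ^ 2 := by positivity
  have q1 : t1 ^ 2 + B * t1 + C ≤ 0 := nonpos_of_mul_nonpos_right h1 p1
  have q2 : 0 ≤ t2 ^ 2 + B * t2 + C := nonneg_of_mul_nonneg_right h2 p2
  have q3 : t3 ^ 2 + B * t3 + C ≤ 0 := nonpos_of_mul_nonpos_right h3 p3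
  have r : (t3 - t2) * (t1 ^ 2 + B * t1 + C) + (t2 - t1) * (t3 ^ 2 + B * t3 + C)
      = (t3 - t1) * (t2 ^ 2 + B * t2 + C) + (t3 - t2) * (t2 - t1) * (t3 - t1) := by ring
  have r1 : (t3 - t2) * (t1 ^ 2 + B * t1 + C) ≤ 0 :=
    mul_nonpos_of_nonneg_of_nonpos (by linarith) q1
  have r2 : (t2 - t1) * (t3 ^ 2 + B * t3 + C) ≤ 0 :=
    mul_nonpos_of_nonneg_of_nonpos (by linarith) q3
  have r3 : 0 ≤ (t3 - t1) * (t2 ^ 2 + B * t2 + C) := mul_nonneg (by linarith) q2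
  have r4 : 0 < (t3 - t2) * (t2 - t1) * (t3 - t1) := by
    have a1 : 0 < t3 - t2 := by linarith
    have a2 : 0 < t2 - t1 := by linarith
    have a3 : 0 < t3 - t1 := by linarith
    positivity
  linarith

/-- a quartic whose complex roots are all real splits -/
theorem quartic_split (a b c d : ℝ)
    (h : ∀ t : ℂ, t ^ 4 + a * t ^ 3 + b * t ^ 2 + c * t + d = 0 → t.im = 0) :
    ∃ r1 r2 r3 r4 : ℝ, ∀ t : ℝ, t ^ 4 + a * t ^ 3 + b * t ^ 2 + c * t + d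
      = (t - r1) * (t - r2) * (t - r3) * (t - r4) := by
  have real_of : ∀ t : ℂ, t.im = 0 → t = ((t.re : ℝ) : ℂ) := fun t ht =>
    Complex.ext (by simp) (by simp [ht])
  -- first root
  obtain ⟨z1, hz1⟩ : ∃ z : ℂ, z ^ 4 + a * z ^ 3 + b * z ^ 2 + c * z + d = 0 := by
    have hd : (X ^ 4 + C (a : ℂ) * X ^ 3 + C (b : ℂ) * X ^ 2 + C (c : ℂ) * X
        + C (d : ℂ) : ℂ[X]).degree = 4 := by compute_degree!
    obtain ⟨z, hz⟩ := IsAlgClosed.exists_root _ (by rw [hd]; norm_num : (X ^ 4 + C (a : ℂ) * X ^ 3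
      + C (b : ℂ) * X ^ 2 + C (c : ℂ) * X + C (d : ℂ) : ℂ[X]).degree ≠ 0)
    exact ⟨z, by simpa [IsRoot] using hz⟩
  obtain ⟨r1, rfl⟩ : ∃ r : ℝ, z1 = (r : ℂ) := ⟨_, real_of _ (h z1 hz1)⟩
  have e1 : r1 ^ 4 + a * r1 ^ 3 + b * r1 ^ 2 + c * r1 + d = 0 := by exact_mod_cast hz1
  set a1 := a + r1 with ha1
  set b1 := b + r1 * a1 with hb1
  set c1 := c + r1 * b1 with hc1
  have f1 : ∀ t : ℂ, t ^ 4 + a * t ^ 3 + b * t ^ 2 + c * t + d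
      = (t - r1) * (t ^ 3 + a1 * t ^ 2 + b1 * t + c1) := by
    intro t
    have e1' : (r1 : ℂ) ^ 4 + a * r1 ^ 3 + b * r1 ^ 2 + c * r1 + d = 0 := hz1
    rw [hc1, hb1, ha1]
    push_cast
    linear_combination e1'
  obtain ⟨z2, hz2⟩ : ∃ z : ℂ, z ^ 3 + a1 * z ^ 2 + b1 * z + c1 = 0 := by
    have hd : (X ^ 3 + C (a1 : ℂ) * X ^ 2 + C (b1 : ℂ) * X + C (c1 : ℂ) : ℂ[X]).degree = 3 := by
      compute_degree!
    obtain ⟨z, hz⟩ := IsAlgClosed.exists_root _ (by rw [hd]; norm_num :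
      (X ^ 3 + C (a1 : ℂ) * X ^ 2 + C (b1 : ℂ) * X + C (c1 : ℂ) : ℂ[X]).degree ≠ 0)
    exact ⟨z, by simpa [IsRoot] using hz⟩
  obtain ⟨r2, rfl⟩ : ∃ r : ℝ, z2 = (r : ℂ) := ⟨_, real_of _ (h z2 (by rw [f1, hz2, mul_zero]))⟩
  set a2 := a1 + r2 with ha2
  set b2 := b1 + r2 * a2 with hb2
  have f2 : ∀ t : ℂ, t ^ 3 + a1 * t ^ 2 + b1 * t + c1 = (t - r2) * (t ^ 2 + a2 * t + b2) := by
    intro t
    rw [hb2, ha2]
    push_cast
    linear_combination hz2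
  obtain ⟨z3, hz3⟩ : ∃ z : ℂ, z ^ 2 + a2 * z + b2 = 0 := by
    have hd : (X ^ 2 + C (a2 : ℂ) * X + C (b2 : ℂ) : ℂ[X]).degree = 2 := by
      compute_degree!
    obtain ⟨z, hz⟩ := IsAlgClosed.exists_root _ (by rw [hd]; norm_num :
      (X ^ 2 + C (a2 : ℂ) * X + C (b2 : ℂ) : ℂ[X]).degree ≠ 0)
    exact ⟨z, by simpa [IsRoot] using hz⟩
  obtain ⟨r3, rfl⟩ : ∃ r : ℝ, z3 = (r : ℂ) :=
    ⟨_, real_of _ (h z3 (by rw [f1, f2, hz3, mul_zero, mul_zero]))⟩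
  refine ⟨r1, r2, r3, -(a2 + r3), fun t => ?_⟩
  have g1 := f1 (t : ℂ)
  have g2 := f2 (t : ℂ)
  have g3 : (t : ℂ) ^ 2 + a2 * t + b2 = (t - r3) * (t - ((-(a2 + r3) : ℝ) : ℂ)) := by
    push_cast
    linear_combination hz3
  rw [g2, g3] at g1
  have : ((t ^ 4 + a * t ^ 3 + b * t ^ 2 + c * t + d : ℝ) : ℂ)
      = (((t - r1) * (t - r2) * (t - r3) * (t - -(a2 + r3)) : ℝ) : ℂ) := by
    push_cast at g1 ⊢
    linear_combination g1
  exact_mod_cast this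

end Pool.Agent.H734.Amalg
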