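import Pool.Agent.H734.Amalg.Defs
import Pool.Agent.H734.Amalg.Roots

/-! # Extraction of the unknown coefficients -/

set_option autoImplicit false

namespace Pool.Agent.H734.Amalg

open MvPolynomial

/-- the index type of the four variables -/
abbrev V4 : Type := Fin 2 ⊕ (Fin 1 ⊕ Fin 1)

/-- the complex point with coordinates `x1, x2, y, z` -/
def pt (x1 x2 y z : ℂ) : V4 → ℂ := Sum.elim ![x1, x2] (Sum.elim (fun _ => y) (fun _ => z))

noncomputable def ev (r : MvPolynomial V4 ℝ) (x1 x2 y z : ℂ) : ℂ := aeval (pt x1 x2 y z) r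

/-- the value of the unknown part -/
noncomputable def wv (w : W) (x1 x2 y z : ℂ) : ℂ :=
  w.l0 + w.l1 * x1 + w.l2 * x2 + w.l3 * y + w.l4 * z
    + w.w11 * x1 ^ 2 + w.w12 * (x1 * x2) + w.w13 * (x1 * y) + w.w14 * (x1 * z)
    + w.w22 * x2 ^ 2 + w.w23 * (x2 * y) + w.w24 * (x2 * z) + w.w33 * y ^ 2 + w.w34 * (y * z)
    + w.w44 * z ^ 2

def Good (r : MvPolynomial V4 ℝ) : Prop :=
  ∃ w : W, ∀ x1 x2 y z : ℂ, ev r x1 x2 y z - ev r x1 x2 y 0 - ev r x1 x2 0 z + ev r x1 x2 0 0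
    = y * z * wv w x1 x2 y z

theorem good_zero : Good 0 :=
  ⟨⟨0, 0, 0, 0, 0, 0, 0, 0, 0, 0, 0, 0, 0, 0, 0⟩, fun x1 x2 y z => by simp [ev, wv]⟩

theorem good_add {r s : MvPolynomial V4 ℝ} (hr : Good r) (hs : Good s) : Good (r + s) := by
  obtain ⟨w, hw⟩ := hr
  obtain ⟨v, hv⟩ := hs
  refine ⟨⟨w.l0 + v.l0, w.l1 + v.l1, w.l2 + v.l2, w.l3 + v.l3, w.l4 + v.l4, w.w11 + v.w11,
    w.w12 + v.w12, w.w13 + v.w13, w.w14 + v.w14, w.w22 + v.w22, w.w23 + v.w23, w.w24 + v.w24,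
    w.w33 + v.w33, w.w34 + v.w34, w.w44 + v.w44⟩, fun x1 x2 y z => ?_⟩
  have h1 := hw x1 x2 y z
  have h2 := hv x1 x2 y z
  simp only [ev, wv, map_add] at *
  push_cast
  linear_combination h1 + h2

theorem ev_mono (m : V4 →₀ ℕ) (a : ℝ) (x1 x2 y z : ℂ) :
    ev (monomial m a) x1 x2 y z = a * (x1 ^ m (Sum.inl 0) * x2 ^ m (Sum.inl 1)
      * (y ^ m (Sum.inr (Sum.inl 0)) * z ^ m (Sum.inr (Sum.inr 0)))) := by
  rw [ev, aeval_monomial, Finsupp.prod_fintype _ _ (fun i => pow_zero _)]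
  simp [Fintype.prod_sum_type, pt, Fin.prod_univ_two]

theorem good_mono (m : V4 →₀ ℕ) (a : ℝ) (hm : (m.sum fun _ e => e) ≤ 4) :
    Good (monomial m a) := by
  rw [Finsupp.sum_fintype _ _ (fun i => rfl)] at hm
  simp only [Fintype.sum_sum_type, Fin.sum_univ_two, Finset.univ_unique, Fin.default_eq_zero,
    Finset.sum_singleton] at hm
  generalize hi : m (Sum.inl 0) = i at hm
  generalize hj : m (Sum.inl 1) = j at hm
  generalize hk : m (Sum.inr (Sum.inl 0)) = k at hm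
  generalize hl : m (Sum.inr (Sum.inr 0)) = l at hm
  have e : ∀ x1 x2 y z : ℂ, ev (monomial m a) x1 x2 y z
      = a * (x1 ^ i * x2 ^ j * (y ^ k * z ^ l)) := by
    intro x1 x2 y z
    rw [ev_mono, hi, hj, hk, hl]
  rcases Nat.eq_zero_or_pos k with rfl | hk0
  · refine ⟨⟨0, 0, 0, 0, 0, 0, 0, 0, 0, 0, 0, 0, 0, 0, 0⟩, fun x1 x2 y z => ?_⟩
    simp only [e, wv]
    simp
  rcases Nat.eq_zero_or_pos l with rfl | hl0
  · refine ⟨⟨0, 0, 0, 0, 0, 0, 0, 0, 0, 0, 0, 0, 0, 0, 0⟩, fun x1 x2 y z => ?_⟩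
    simp only [e, wv]
    simp
  obtain ⟨k', rfl⟩ : ∃ k', k = k' + 1 := ⟨k - 1, by omega⟩
  obtain ⟨l', rfl⟩ : ∃ l', l = l' + 1 := ⟨l - 1, by omega⟩
  have b1 : i ≤ 2 := by omega
  have b2 : j ≤ 2 := by omega
  have b3 : k' ≤ 2 := by omega
  have b4 : l' ≤ 2 := by omega
  let c : ℕ → ℕ → ℕ → ℕ → ℝ := fun i' j' k'' l'' =>
    if i = i' ∧ j = j' ∧ k' = k'' ∧ l' = l'' then a else 0
  refine ⟨⟨c 0 0 0 0, c 1 0 0 0, c 0 1 0 0, c 0 0 1 0, c 0 0 0 1, c 2 0 0 0, c 1 1 0 0, c 1 0 1 0,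
    c 1 0 0 1, c 0 2 0 0, c 0 1 1 0, c 0 1 0 1, c 0 0 2 0, c 0 0 1 1, c 0 0 0 2⟩,
    fun x1 x2 y z => ?_⟩
  simp only [e, wv, c]
  clear e hi hj hk hl
  interval_cases i <;> interval_cases j <;> interval_cases k' <;> interval_cases l' <;>
    first
    | (exfalso; omega)
    | (simp; try ring)

theorem good_of_degree (r : MvPolynomial V4 ℝ) (hr : r.totalDegree ≤ 4) : Good r := by
  rw [MvPolynomial.as_sum r]
  have : ∀ s : Finset (V4 →₀ ℕ), s ⊆ r.support → Good (∑ v ∈ s, monomial v (coeff v r)) := by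
    intro s
    induction s using Finset.induction_on with
    | empty => intro _; simpa using good_zero
    | insert v s hv ih =>
      intro hs
      rw [Finset.sum_insert hv]
      refine good_add (good_mono _ _ ?_) (ih fun x hx => hs (Finset.mem_insert_of_mem hx))
      exact (le_totalDegree (hs (Finset.mem_insert_self _ _))).trans hr
  exact this _ subset_rfl

end Pool.Agent.H734.Amalg
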