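import Pool.Agent.H734.Amalg.Ext

/-! # The two polynomials and the absence of an amalgam -/

set_option autoImplicit false

namespace Pool.Agent.H734.Amalg

open MvPolynomial

abbrev V3 : Type := Fin 2 ⊕ Fin 1

noncomputable def pp : MvPolynomial V3 ℝ :=
  1 + C 4 * (X (Sum.inl 0) + X (Sum.inl 1)) + C 2 * (X (Sum.inl 0) + X (Sum.inl 1)) ^ 2
    + C 8 * (X (Sum.inl 0) * X (Sum.inl 1))
    + C 4 * (X (Sum.inl 0) * X (Sum.inl 1)) * (X (Sum.inl 0) + X (Sum.inl 1))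
    + X (Sum.inr 0) * (1 + C 2 * X (Sum.inl 0)) * (1 + C 2 * X (Sum.inl 1))

noncomputable def qq : MvPolynomial V3 ℝ :=
  (1 + X (Sum.inr 0)) ^ 2
    + C 2 * (X (Sum.inl 0) + X (Sum.inl 1) + C 2 + X (Sum.inr 0))
      * (X (Sum.inl 0) * X (Sum.inl 1) * (C 2 + X (Sum.inr 0))
        + (X (Sum.inl 0) + X (Sum.inl 1)) * (1 + X (Sum.inr 0)))

def pv (x1 x2 y : ℂ) : ℂ :=
  1 + 4 * (x1 + x2) + 2 * (x1 + x2) ^ 2 + 8 * (x1 * x2) + 4 * (x1 * x2) * (x1 + x2)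
    + y * (1 + 2 * x1) * (1 + 2 * x2)

def qv (x1 x2 z : ℂ) : ℂ :=
  (1 + z) ^ 2 + 2 * (x1 + x2 + 2 + z) * (x1 * x2 * (2 + z) + (x1 + x2) * (1 + z))

theorem aeval_pp (g : V3 → ℂ) :
    aeval g pp = pv (g (Sum.inl 0)) (g (Sum.inl 1)) (g (Sum.inr 0)) := by
  simp only [pp, pv, map_add, map_mul, map_pow, map_one, aeval_X, aeval_C]
  simp

theorem aeval_qq (g : V3 → ℂ) :
    aeval g qq = qv (g (Sum.inl 0)) (g (Sum.inl 1)) (g (Sum.inr 0)) := by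
  simp only [qq, qv, map_add, map_mul, map_pow, map_one, aeval_X, aeval_C]
  simp

theorem rest_eq : restX pp = restX qq := by
  simp only [restX, pp, qq, map_add, map_mul, map_pow, map_one, aeval_X, aeval_C,
    Sum.elim_inl, Sum.elim_inr, MvPolynomial.algebraMap_eq]
  have h2 : (C 2 : MvPolynomial (Fin 2) ℝ) = 2 := map_ofNat C 2
  have h4 : (C 4 : MvPolynomial (Fin 2) ℝ) = 4 := map_ofNat C 4
  have h8 : (C 8 : MvPolynomial (Fin 2) ℝ) = 8 := map_ofNat C 8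
  rw [h2, h4, h8]
  ring

/-! ## degrees -/

theorem td_add {σ : Type} {f g : MvPolynomial σ ℝ} {a : ℕ} (hf : f.totalDegree ≤ a)
    (hg : g.totalDegree ≤ a) : (f + g).totalDegree ≤ a :=
  (totalDegree_add f g).trans (max_le hf hg)

theorem td_mul {σ : Type} {f g : MvPolynomial σ ℝ} (a b : ℕ) (hf : f.totalDegree ≤ a)
    (hg : g.totalDegree ≤ b) : (f * g).totalDegree ≤ a + b :=
  (totalDegree_mul f g).trans (add_le_add hf hg)

theorem td_pow {σ : Type} {f : MvPolynomial σ ℝ} (a n : ℕ) (hf : f.totalDegree ≤ a) :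
    (f ^ n).totalDegree ≤ n * a :=
  (totalDegree_pow f n).trans (Nat.mul_le_mul_left n hf)

theorem td_C {σ : Type} (c : ℝ) (a : ℕ) : (C c : MvPolynomial σ ℝ).totalDegree ≤ a := by
  rw [totalDegree_C]
  exact Nat.zero_le _

theorem td_one {σ : Type} (a : ℕ) : (1 : MvPolynomial σ ℝ).totalDegree ≤ a := by
  rw [totalDegree_one]
  exact Nat.zero_le _

theorem td_X {σ : Type} (i : σ) {a : ℕ} (ha : 1 ≤ a) :
    (X i : MvPolynomial σ ℝ).totalDegree ≤ a := by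
  rw [totalDegree_X]
  exact ha

theorem td_mono {σ : Type} {f : MvPolynomial σ ℝ} {a b : ℕ} (hf : f.totalDegree ≤ a)
    (h : a ≤ b) : f.totalDegree ≤ b := hf.trans h

theorem deg_pp : pp.totalDegree ≤ 4 := by
  have s : (X (Sum.inl 0) + X (Sum.inl 1) : MvPolynomial V3 ℝ).totalDegree ≤ 1 :=
    td_add (td_X _ le_rfl) (td_X _ le_rfl)
  have q : (X (Sum.inl 0) * X (Sum.inl 1) : MvPolynomial V3 ℝ).totalDegree ≤ 2 :=
    td_mul 1 1 (td_X _ le_rfl) (td_X _ le_rfl)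
  have u : ∀ i : V3, (1 + C 2 * X i : MvPolynomial V3 ℝ).totalDegree ≤ 1 := fun i =>
    td_add (td_one 1) (td_mul 0 1 (td_C _ 0) (td_X _ le_rfl))
  refine td_add (td_add (td_add (td_add (td_add (td_one _) ?_) ?_) ?_) ?_) ?_
  · exact td_mono (td_mul 0 1 (td_C _ 0) s) (by norm_num)
  · exact td_mono (td_mul 0 2 (td_C _ 0) (td_pow 1 2 s)) (by norm_num)
  · exact td_mono (td_mul 0 2 (td_C _ 0) q) (by norm_num)
  · exact td_mono (td_mul 2 1 (td_mul 0 2 (td_C _ 0) q) s) (by norm_num)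
  · exact td_mono (td_mul 2 1 (td_mul 1 1 (td_X _ le_rfl) (u _)) (u _)) (by norm_num)

theorem deg_qq : qq.totalDegree ≤ 4 := by
  have s : (X (Sum.inl 0) + X (Sum.inl 1) : MvPolynomial V3 ℝ).totalDegree ≤ 1 :=
    td_add (td_X _ le_rfl) (td_X _ le_rfl)
  have q : (X (Sum.inl 0) * X (Sum.inl 1) : MvPolynomial V3 ℝ).totalDegree ≤ 2 :=
    td_mul 1 1 (td_X _ le_rfl) (td_X _ le_rfl)
  have z : (X (Sum.inr 0) : MvPolynomial V3 ℝ).totalDegree ≤ 1 := td_X _ le_rfl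
  refine td_add ?_ ?_
  · exact td_mono (td_pow 1 2 (td_add (td_one 1) z)) (by norm_num)
  · refine td_mono (td_mul 1 3 (td_mul 0 1 (td_C _ 0) (td_add (td_add s (td_C _ 1)) z)) ?_)
      (by norm_num)
    refine td_add ?_ ?_
    · exact td_mul 2 1 q (td_add (td_C _ 1) z)
    · exact td_mono (td_mul 1 1 s (td_add (td_one 1) z)) (by norm_num)

/-! ## the two polynomials are real zero -/

/-- passing from the real-rootedness of the reversed polynomials to the real zero property -/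
theorem im_of_inv {c : ℂ} (h : (c⁻¹).im = 0) : c.im = 0 := by
  rw [Complex.inv_im] at h
  by_cases hc : c = 0
  · simp [hc]
  · have h1 : Complex.normSq c ≠ 0 := (Complex.normSq_pos.2 hc).ne'
    rw [div_eq_zero_iff] at h
    rcases h with h | h
    · linarith
    · exact absurd h h1

theorem pcubic (x1 x2 y : ℝ) (h12 : x2 ≤ x1) (t : ℂ)
    (ht : t ^ 3 + ((4 * (x1 + x2) + y : ℝ) : ℂ) * t ^ 2
      + ((2 * (x1 + x2) ^ 2 + 8 * (x1 * x2) + 2 * (x1 + x2) * y : ℝ) : ℂ) * t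
      + ((4 * (x1 * x2) * (x1 + x2) + 4 * (x1 * x2) * y : ℝ) : ℂ) = 0) : t.im = 0 := by
  rcases h12.lt_or_eq with h | h
  · refine cubic_real _ _ _ (-2 * x1) (-2 * x2) (by linarith) ?_ ?_ t ht
    · have : (-2 * x1) ^ 3 + (4 * (x1 + x2) + y) * (-2 * x1) ^ 2
          + (2 * (x1 + x2) ^ 2 + 8 * (x1 * x2) + 2 * (x1 + x2) * y) * (-2 * x1)
          + (4 * (x1 * x2) * (x1 + x2) + 4 * (x1 * x2) * y) = (x1 - x2) * (2 * x1) ^ 2 := by ring
      rw [this]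
      have : 0 < x1 - x2 := by linarith
      positivity
    · have : (-2 * x2) ^ 3 + (4 * (x1 + x2) + y) * (-2 * x2) ^ 2
          + (2 * (x1 + x2) ^ 2 + 8 * (x1 * x2) + 2 * (x1 + x2) * y) * (-2 * x2)
          + (4 * (x1 * x2) * (x1 + x2) + 4 * (x1 * x2) * y) = -((x1 - x2) * (2 * x2) ^ 2) := by
        ring
      rw [this]
      have h2 : 0 < x1 - x2 := by linarith
      have : 0 ≤ (x1 - x2) * (2 * x2) ^ 2 := by positivity
      linarith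
  · subst h
    have f : (t + ((2 * x2 : ℝ) : ℂ)) * (t ^ 2 + ((6 * x2 + y : ℝ) : ℂ) * t
        + ((4 * x2 ^ 2 + 2 * x2 * y : ℝ) : ℂ)) = 0 := by
      rw [← ht]
      push_cast
      ring
    rcases mul_eq_zero.1 f with f | f
    · have : t = ((-(2 * x2) : ℝ) : ℂ) := by
        push_cast at f ⊢
        linear_combination f
      rw [this, Complex.ofReal_im]
    · refine quad_real _ _ (-(2 * x2)) ?_ t f
      nlinarith [sq_nonneg x2]

theorem realZero_pp : RealZero pp := by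
  intro a c hc
  rw [aeval_pp] at hc
  set x1 := a (Sum.inl 0) with hx1
  set x2 := a (Sum.inl 1) with hx2
  set y := a (Sum.inr 0) with hy
  by_cases h0 : c = 0
  · simp [h0]
  apply im_of_inv
  have hq : (c⁻¹) ^ 3 + ((4 * (x1 + x2) + y : ℝ) : ℂ) * (c⁻¹) ^ 2
      + ((2 * (x1 + x2) ^ 2 + 8 * (x1 * x2) + 2 * (x1 + x2) * y : ℝ) : ℂ) * c⁻¹
      + ((4 * (x1 * x2) * (x1 + x2) + 4 * (x1 * x2) * y : ℝ) : ℂ) = 0 := by
    have : (c⁻¹) ^ 3 + ((4 * (x1 + x2) + y : ℝ) : ℂ) * (c⁻¹) ^ 2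
      + ((2 * (x1 + x2) ^ 2 + 8 * (x1 * x2) + 2 * (x1 + x2) * y : ℝ) : ℂ) * c⁻¹
      + ((4 * (x1 * x2) * (x1 + x2) + 4 * (x1 * x2) * y : ℝ) : ℂ)
        = (c⁻¹) ^ 3 * pv (c * x1) (c * x2) (c * y) := by
      simp only [pv]
      push_cast
      field_simp
      ring
    rw [this, hc, mul_zero]
  rcases le_total x2 x1 with h | h
  · exact pcubic x1 x2 y h _ hq
  · refine pcubic x2 x1 y h _ ?_
    rw [← hq]
    push_cast
    ring

/-- the quartic of `q` for nonnegative `z` and `x1 + x2` -/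
theorem qquartic (x1 x2 z : ℝ) (hz : 0 ≤ z) (hs : 0 ≤ x1 + x2) (t : ℂ)
    (ht : t ^ 4 + ((4 * (x1 + x2) + 2 * z : ℝ) : ℂ) * t ^ 3
      + ((2 * (x1 + x2) ^ 2 + 8 * (x1 * x2) + z ^ 2 + 6 * (x1 + x2) * z : ℝ) : ℂ) * t ^ 2
      + ((4 * (x1 * x2) * (x1 + x2) + 2 * (x1 + x2) * z * (x1 + x2 + z) + 8 * (x1 * x2) * z : ℝ)
        : ℂ) * t
      + ((2 * (x1 * x2) * z * (x1 + x2 + z) : ℝ) : ℂ) = 0) : t.im = 0 := by
  rcases hs.lt_or_eq with h | h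
  · have hk : ∀ u : ℝ, u ^ 4 + (4 * (x1 + x2) + 2 * z) * u ^ 3
      + (2 * (x1 + x2) ^ 2 + 8 * (x1 * x2) + z ^ 2 + 6 * (x1 + x2) * z) * u ^ 2
      + (4 * (x1 * x2) * (x1 + x2) + 2 * (x1 + x2) * z * (x1 + x2 + z) + 8 * (x1 * x2) * z) * u
      + 2 * (x1 * x2) * z * (x1 + x2 + z)
      = (u * (u + z)) ^ 2 + 2 * (x1 + x2) * (x1 + x2 + (2 * u + z)) * (u * (u + z))
        + 2 * (x1 * x2) * (2 * u + z) * (x1 + x2 + (2 * u + z)) := by
      intro u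
      ring
    have t1 : (-z - (x1 + x2)) ^ 4 + (4 * (x1 + x2) + 2 * z) * (-z - (x1 + x2)) ^ 3
      + (2 * (x1 + x2) ^ 2 + 8 * (x1 * x2) + z ^ 2 + 6 * (x1 + x2) * z) * (-z - (x1 + x2)) ^ 2
      + (4 * (x1 * x2) * (x1 + x2) + 2 * (x1 + x2) * z * (x1 + x2 + z) + 8 * (x1 * x2) * z)
        * (-z - (x1 + x2))
      + 2 * (x1 * x2) * z * (x1 + x2 + z) ≤ 0 := by
      have : (-z - (x1 + x2)) ^ 4 + (4 * (x1 + x2) + 2 * z) * (-z - (x1 + x2)) ^ 3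
        + (2 * (x1 + x2) ^ 2 + 8 * (x1 * x2) + z ^ 2 + 6 * (x1 + x2) * z) * (-z - (x1 + x2)) ^ 2
        + (4 * (x1 * x2) * (x1 + x2) + 2 * (x1 + x2) * z * (x1 + x2 + z) + 8 * (x1 * x2) * z)
          * (-z - (x1 + x2))
        + 2 * (x1 * x2) * z * (x1 + x2 + z)
          = -((z + (x1 + x2)) * ((x1 ^ 2 + x2 ^ 2) * z + (x1 + x2) * (x1 - x2) ^ 2)) := by ring
      rw [this]
      have : 0 ≤ (z + (x1 + x2)) * ((x1 ^ 2 + x2 ^ 2) * z + (x1 + x2) * (x1 - x2) ^ 2) := by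
        positivity
      linarith
    have t2 : 0 ≤ (-(z + (x1 + x2)) / 2) ^ 4 + (4 * (x1 + x2) + 2 * z) * (-(z + (x1 + x2)) / 2) ^ 3
      + (2 * (x1 + x2) ^ 2 + 8 * (x1 * x2) + z ^ 2 + 6 * (x1 + x2) * z)
        * (-(z + (x1 + x2)) / 2) ^ 2
      + (4 * (x1 * x2) * (x1 + x2) + 2 * (x1 + x2) * z * (x1 + x2 + z) + 8 * (x1 * x2) * z)
        * (-(z + (x1 + x2)) / 2)
      + 2 * (x1 * x2) * z * (x1 + x2 + z) := by
      have : (-(z + (x1 + x2)) / 2) ^ 4 + (4 * (x1 + x2) + 2 * z) * (-(z + (x1 + x2)) / 2) ^ 3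
        + (2 * (x1 + x2) ^ 2 + 8 * (x1 * x2) + z ^ 2 + 6 * (x1 + x2) * z)
          * (-(z + (x1 + x2)) / 2) ^ 2
        + (4 * (x1 * x2) * (x1 + x2) + 2 * (x1 + x2) * z * (x1 + x2 + z) + 8 * (x1 * x2) * z)
          * (-(z + (x1 + x2)) / 2)
        + 2 * (x1 * x2) * z * (x1 + x2 + z) = (((x1 + x2) ^ 2 - z ^ 2) / 4) ^ 2 := by ring
      rw [this]
      positivity
    by_cases hp : x1 * x2 ≤ 0
    · refine quartic_real _ _ _ _ (-z - (x1 + x2)) (-(z + (x1 + x2)) / 2) 0 (by linarith)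
        (by linarith) t1 t2 ?_ t ht
      have : 0 ≤ z * (x1 + x2 + z) := by positivity
      nlinarith [mul_nonpos_of_nonpos_of_nonneg hp this]
    · push Not at hp
      by_cases hz8 : z ^ 2 ≤ 8 * (x1 + x2) ^ 2
      · refine quartic_real _ _ _ _ (-z - (x1 + x2)) (-(z + (x1 + x2)) / 2) (-z / 2) (by linarith)
          (by linarith) t1 t2 ?_ t ht
        rw [hk]
        have : (-z / 2 * (-z / 2 + z)) ^ 2
            + 2 * (x1 + x2) * (x1 + x2 + (2 * (-z / 2) + z)) * (-z / 2 * (-z / 2 + z))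
            + 2 * (x1 * x2) * (2 * (-z / 2) + z) * (x1 + x2 + (2 * (-z / 2) + z))
            = -(z ^ 2 / 4 * ((8 * (x1 + x2) ^ 2 - z ^ 2) / 4)) := by ring
        rw [this]
        have h1 : 0 ≤ (8 * (x1 + x2) ^ 2 - z ^ 2) / 4 := by linarith
        have : 0 ≤ z ^ 2 / 4 * ((8 * (x1 + x2) ^ 2 - z ^ 2) / 4) := by positivity
        linarith
      · push Not at hz8
        have hzs : x1 + x2 < z := by
          nlinarith
        refine quartic_real _ _ _ _ (-z - (x1 + x2)) (-(z + (x1 + x2)) / 2) (-(x1 + x2))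
          (by linarith) (by linarith) t1 t2 ?_ t ht
        have : (-(x1 + x2)) ^ 4 + (4 * (x1 + x2) + 2 * z) * (-(x1 + x2)) ^ 3
          + (2 * (x1 + x2) ^ 2 + 8 * (x1 * x2) + z ^ 2 + 6 * (x1 + x2) * z) * (-(x1 + x2)) ^ 2
          + (4 * (x1 * x2) * (x1 + x2) + 2 * (x1 + x2) * z * (x1 + x2 + z) + 8 * (x1 * x2) * z)
            * (-(x1 + x2))
          + 2 * (x1 * x2) * z * (x1 + x2 + z)
            = -((z - (x1 + x2)) * ((x1 ^ 2 + x2 ^ 2) * (z - (x1 + x2))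
              + 2 * (x1 * x2) * (x1 + x2))) := by ring
        rw [this]
        have h1 : 0 < z - (x1 + x2) := by linarith
        have : 0 ≤ (z - (x1 + x2)) * ((x1 ^ 2 + x2 ^ 2) * (z - (x1 + x2))
              + 2 * (x1 * x2) * (x1 + x2)) := by positivity
        linarith
  · obtain rfl : x2 = -x1 := by linarith
    have hr : (Real.sqrt 2 : ℝ) ^ 2 = 2 := Real.sq_sqrt (by norm_num)
    have hrc : ((Real.sqrt 2 : ℝ) : ℂ) ^ 2 = 2 := by
      rw [← Complex.ofReal_pow, hr]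
      norm_num
    have f : (t ^ 2 + ((z - 2 * Real.sqrt 2 * x1 : ℝ) : ℂ) * t + ((-(Real.sqrt 2 * x1 * z) : ℝ) : ℂ))
        * (t ^ 2 + ((z + 2 * Real.sqrt 2 * x1 : ℝ) : ℂ) * t + ((Real.sqrt 2 * x1 * z : ℝ) : ℂ))
        = 0 := by
      rw [← ht]
      push_cast
      linear_combination (-(4 * x1 ^ 2 * t ^ 2) - 4 * x1 ^ 2 * z * t - x1 ^ 2 * z ^ 2) * hrc
    rcases mul_eq_zero.1 f with f | f
    · refine quad_real _ _ (-z / 2) ?_ t f
      nlinarith [sq_nonneg z]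
    · refine quad_real _ _ (-z / 2) ?_ t f
      nlinarith [sq_nonneg z]

theorem qquartic2 (x1 x2 z : ℝ) (hz : 0 ≤ z) (t : ℂ)
    (ht : t ^ 4 + ((4 * (x1 + x2) + 2 * z : ℝ) : ℂ) * t ^ 3
      + ((2 * (x1 + x2) ^ 2 + 8 * (x1 * x2) + z ^ 2 + 6 * (x1 + x2) * z : ℝ) : ℂ) * t ^ 2
      + ((4 * (x1 * x2) * (x1 + x2) + 2 * (x1 + x2) * z * (x1 + x2 + z) + 8 * (x1 * x2) * z : ℝ)
        : ℂ) * t
      + ((2 * (x1 * x2) * z * (x1 + x2 + z) : ℝ) : ℂ) = 0) : t.im = 0 := by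
  rcases le_total 0 (x1 + x2) with h | h
  · exact qquartic x1 x2 z hz h t ht
  · have := qquartic (-x1) (-x2) z hz (by linarith) (-t - z) (by
      rw [← ht]
      push_cast
      ring)
    simpa using this

theorem qquartic3 (x1 x2 z : ℝ) (t : ℂ)
    (ht : t ^ 4 + ((4 * (x1 + x2) + 2 * z : ℝ) : ℂ) * t ^ 3
      + ((2 * (x1 + x2) ^ 2 + 8 * (x1 * x2) + z ^ 2 + 6 * (x1 + x2) * z : ℝ) : ℂ) * t ^ 2
      + ((4 * (x1 * x2) * (x1 + x2) + 2 * (x1 + x2) * z * (x1 + x2 + z) + 8 * (x1 * x2) * z : ℝ)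
        : ℂ) * t
      + ((2 * (x1 * x2) * z * (x1 + x2 + z) : ℝ) : ℂ) = 0) : t.im = 0 := by
  rcases le_total 0 z with h | h
  · exact qquartic2 x1 x2 z h t ht
  · have := qquartic2 x1 x2 (-z) (by linarith) (t + z) (by
      rw [← ht]
      push_cast
      ring)
    simpa using this

theorem realZero_qq : RealZero qq := by
  intro a c hc
  rw [aeval_qq] at hc
  set x1 := a (Sum.inl 0) with hx1
  set x2 := a (Sum.inl 1) with hx2
  set z := a (Sum.inr 0) with hz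
  by_cases h0 : c = 0
  · simp [h0]
  apply im_of_inv
  refine qquartic3 x1 x2 z _ ?_
  have : (c⁻¹) ^ 4 + ((4 * (x1 + x2) + 2 * z : ℝ) : ℂ) * (c⁻¹) ^ 3
      + ((2 * (x1 + x2) ^ 2 + 8 * (x1 * x2) + z ^ 2 + 6 * (x1 + x2) * z : ℝ) : ℂ) * (c⁻¹) ^ 2
      + ((4 * (x1 * x2) * (x1 + x2) + 2 * (x1 + x2) * z * (x1 + x2 + z) + 8 * (x1 * x2) * z : ℝ)
        : ℂ) * (c⁻¹)
      + ((2 * (x1 * x2) * z * (x1 + x2 + z) : ℝ) : ℂ)
      = (c⁻¹) ^ 4 * qv (c * x1) (c * x2) (c * z) := by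
    simp only [qv]
    push_cast
    field_simp
    ring
  rw [this, hc, mul_zero]

/-! ## there is no amalgam -/

theorem aeval_restXY (r : MvPolynomial V4 ℝ) (x1 x2 y : ℂ) :
    aeval (Sum.elim ![x1, x2] (fun _ => y) : V3 → ℂ) (restXY (m := 1) (n := 1) r)
      = ev r x1 x2 y 0 := by
  rw [restXY, ev, ← AlgHom.comp_apply, comp_aeval]
  congr 1
  congr 1
  funext i
  rcases i with i | i | i <;> simp [pt]

theorem aeval_restXZ (r : MvPolynomial V4 ℝ) (x1 x2 z : ℂ) :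
    aeval (Sum.elim ![x1, x2] (fun _ => z) : V3 → ℂ) (restXZ (m := 1) (n := 1) r)
      = ev r x1 x2 0 z := by
  rw [restXZ, ev, ← AlgHom.comp_apply, comp_aeval]
  congr 1
  congr 1
  funext i
  rcases i with i | i | i <;> simp [pt]

theorem no_amalgam (r : MvPolynomial V4 ℝ) (hd : r.totalDegree ≤ 4) (hr : RealZero r)
    (hp : restXY (m := 1) (n := 1) r = pp) (hq : restXZ (m := 1) (n := 1) r = qq) : False := by
  obtain ⟨w, hw⟩ := good_of_degree r hd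
  have e1 : ∀ x1 x2 y : ℂ, ev r x1 x2 y 0 = pv x1 x2 y := by
    intro x1 x2 y
    rw [← aeval_restXY, hp, aeval_pp]
    simp
  have e2 : ∀ x1 x2 z : ℂ, ev r x1 x2 0 z = qv x1 x2 z := by
    intro x1 x2 z
    rw [← aeval_restXZ, hq, aeval_qq]
    simp
  refine contra (w := w) fun x1 x2 y z => quartic_split _ _ _ _ fun t ht => ?_
  by_cases h0 : t = 0
  · simp [h0]
  have h1 := hr (Sum.elim ![x1, x2] (Sum.elim (fun _ => y) (fun _ => z))) (t⁻¹) (by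
    have h2 : (fun i : V4 => t⁻¹ * ((Sum.elim ![x1, x2] (Sum.elim (fun _ => y) (fun _ => z)) i : ℝ)
        : ℂ)) = pt (t⁻¹ * x1) (t⁻¹ * x2) (t⁻¹ * y) (t⁻¹ * z) := by
      funext i
      rcases i with i | i | i
      · fin_cases i <;> simp [pt]
      · simp [pt]
      · simp [pt]
    rw [h2]
    change ev r _ _ _ _ = 0
    have h3 := hw (t⁻¹ * x1) (t⁻¹ * x2) (t⁻¹ * y) (t⁻¹ * z)
    rw [e1, e2, e1] at h3
    have h4 : ev r (t⁻¹ * x1) (t⁻¹ * x2) (t⁻¹ * y) (t⁻¹ * z)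
        = (t⁻¹) ^ 4 * (t ^ 4 + (E1 x1 x2 y z : ℂ) * t ^ 3 + (E2 w x1 x2 y z : ℂ) * t ^ 2
          + (E3 w x1 x2 y z : ℂ) * t + (E4 w x1 x2 y z : ℂ)) := by
      have h5 : ev r (t⁻¹ * x1) (t⁻¹ * x2) (t⁻¹ * y) (t⁻¹ * z)
        = pv (t⁻¹ * x1) (t⁻¹ * x2) (t⁻¹ * y) + qv (t⁻¹ * x1) (t⁻¹ * x2) (t⁻¹ * z)
          - pv (t⁻¹ * x1) (t⁻¹ * x2) 0
          + (t⁻¹ * y) * (t⁻¹ * z) * wv w (t⁻¹ * x1) (t⁻¹ * x2) (t⁻¹ * y) (t⁻¹ * z) := by
        linear_combination h3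
      rw [h5]
      simp only [pv, qv, wv, E1, E2, E3, E4]
      push_cast
      field_simp
      ring
    rw [h4, ht, mul_zero])
  exact im_of_inv h1

end Pool.Agent.H734.Amalg
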